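import Mathlib

/-!
# MP_106bf9_an : distinct zeros of a polynomial and several of its derivatives

The polynomial `P = (X ^ 2 - 1) ^ 2` has degree `4`, two distinct zeros, and
`Z(P) ∪ Z(P') ∪ Z(P''') = {-1, 0, 1}` has `3 = m + 1` elements for `m = 2` orders `1 < 3`.
-/

set_option autoImplicit false

open Polynomial

namespace Pool.Agent.Results.MP_106bf9_an.FourMinusOne

/-- The set of all complex zeros of `P` and of its derivatives `P^(r k)`, `k < m`. -/
def zeroUnion (P : ℂ[X]) (m : ℕ) (r : Fin m → ℕ) : Set ℂ :=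
  {z | P.eval z = 0} ∪ ⋃ k : Fin m, {z | ((derivative^[r k]) P).eval z = 0}

/-- The counterexample polynomial. -/
noncomputable def P4 : ℂ[X] := (X ^ 2 - 1) ^ 2

lemma P4_eq : P4 = X ^ 4 - C 2 * X ^ 2 + 1 := by
  rw [P4, show (C 2 : ℂ[X]) = 2 from rfl]; ring

lemma degP4 : P4.natDegree = 4 := by
  rw [P4_eq]
  compute_degree!

lemma d1 : derivative P4 = C 4 * X ^ 3 - C 4 * X := by
  rw [P4_eq]
  simp only [derivative_add, derivative_sub, derivative_C_mul, derivative_X_pow, derivative_one]
  simp only [Nat.cast_ofNat, Nat.add_one_sub_one, pow_one, add_zero]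
  rw [← mul_assoc, ← C_mul]
  norm_num

lemma d2 : derivative (derivative P4) = C 12 * X ^ 2 - C 4 := by
  rw [d1]
  simp only [derivative_sub, derivative_C_mul, derivative_X_pow, derivative_X]
  simp only [Nat.cast_ofNat, Nat.add_one_sub_one, mul_one]
  rw [← mul_assoc, ← C_mul]
  norm_num

lemma d3 : derivative (derivative (derivative P4)) = C 24 * X := by
  rw [d2]
  simp only [derivative_sub, derivative_C_mul, derivative_X_pow, derivative_C]
  simp only [Nat.cast_ofNat, Nat.add_one_sub_one, pow_one, sub_zero]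
  rw [← mul_assoc, ← C_mul]
  norm_num

/-- the orders `1 < 3` -/
def ord : Fin 2 → ℕ := ![1, 3]

lemma zeros_P4 : {z : ℂ | P4.eval z = 0} = {1, -1} := by
  ext z
  simp only [P4, eval_pow, eval_sub, eval_X, eval_one, Set.mem_ofPred_eq, Set.mem_insert_iff,
    Set.mem_singleton_iff]
  constructor
  · intro h
    have h1 : z ^ 2 - 1 = 0 := by simpa using h
    have h2 : (z - 1) * (z + 1) = 0 := by linear_combination h1
    rcases mul_eq_zero.1 h2 with h3 | h3
    · left; linear_combination h3
    · right; linear_combination h3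
  · rintro (h | h) <;> rw [h] <;> norm_num

lemma union_eq : zeroUnion P4 2 ord = {0, 1, -1} := by
  have e1 : {z : ℂ | ((derivative^[ord 0]) P4).eval z = 0} = {0, 1, -1} := by
    have : (derivative^[ord 0]) P4 = C 4 * X ^ 3 - C 4 * X := by
      simp only [ord, Matrix.cons_val_zero, Function.iterate_one]
      exact d1
    rw [this]
    ext z
    simp only [eval_sub, eval_mul, eval_C, eval_pow, eval_X, Set.mem_ofPred_eq,
      Set.mem_insert_iff, Set.mem_singleton_iff]
    constructor
    · intro h
      have h2 : z * ((z - 1) * (z + 1)) = 0 := by linear_combination h / 4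
      rcases mul_eq_zero.1 h2 with h3 | h3
      · left; exact h3
      · rcases mul_eq_zero.1 h3 with h4 | h4
        · right; left; linear_combination h4
        · right; right; linear_combination h4
    · rintro (h | h | h) <;> rw [h] <;> norm_num
  have e2 : {z : ℂ | ((derivative^[ord 1]) P4).eval z = 0} = {0} := by
    have : (derivative^[ord 1]) P4 = C 24 * X := by
      simp only [ord, Matrix.cons_val_one, Function.iterate_succ, Function.comp_apply,
        Function.iterate_zero, id_eq]
      exact d3
    rw [this]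
    ext z
    simp
  rw [zeroUnion, zeros_P4]
  ext z
  simp only [Set.mem_union, Set.mem_iUnion]
  constructor
  · rintro (h | ⟨k, hk⟩)
    · right; exact h
    · fin_cases k
      · have : z ∈ {z : ℂ | ((derivative^[ord 0]) P4).eval z = 0} := hk
        rwa [e1] at this
      · have : z ∈ {z : ℂ | ((derivative^[ord 1]) P4).eval z = 0} := hk
        rw [e2] at this
        left; exact this
  · intro h
    right
    refine ⟨0, ?_⟩
    rw [← e1] at h
    exact h

theorem result :
    ∃ (n m : ℕ) (r : Fin m → ℕ) (P : ℂ[X]),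
      2 ≤ n ∧ 1 ≤ m ∧ m ≤ n - 1 ∧ StrictMono r ∧ (∀ k, 1 ≤ r k ∧ r k ≤ n - 1) ∧
      P.natDegree = n ∧ 2 ≤ {z : ℂ | P.eval z = 0}.ncard ∧
      (zeroUnion P m r).ncard = m + 1 := by
  refine ⟨4, 2, ord, P4, by norm_num, by norm_num, by norm_num, ?_, ?_, degP4, ?_, ?_⟩
  · intro i j hij
    fin_cases i <;> fin_cases j <;> simp_all [ord]
  · intro k
    fin_cases k <;> simp [ord]
  · rw [zeros_P4, Set.ncard_pair (by norm_num)]
  · rw [union_eq]
    rw [Set.ncard_insert_of_notMem (by norm_num) (Set.toFinite _), Set.ncard_pair (by norm_num)]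

end Pool.Agent.Results.MP_106bf9_an.FourMinusOne
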